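import Pool.Agent.FTU.Stmts

/-!
# Squad FTU, row GFN: the Gaussian functional
-/

set_option autoImplicit false

open MeasureTheory Complex ProbabilityTheory

noncomputable section

namespace Pool.Agent.FTU.H5

open Pool.Agent.FTU

/-- the values on the monomials -/
def fb (s : Var →₀ ℕ) : RR :=
  if s Var.z = s Var.zb then
    MvPolynomial.monomial ((s.erase Var.z).erase Var.zb) ((2 : ℂ) ^ (s Var.z) * (s Var.z).factorial)
  else 0

/-- the Gaussian functional -/
def G : RR →ₗ[ℂ] RR := (MvPolynomial.basisMonomials Var ℂ).constr ℂ fb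

theorem G_monomial (s : Var →₀ ℕ) (c : ℂ) : G (MvPolynomial.monomial s c) = c • fb s := by
  have h1 : G (MvPolynomial.monomial s 1) = fb s := by
    have h := (MvPolynomial.basisMonomials Var ℂ).constr_basis ℂ fb s
    rw [MvPolynomial.coe_basisMonomials] at h
    exact h
  have h2 : MvPolynomial.monomial s c = c • (MvPolynomial.monomial s 1 : RR) := by
    rw [MvPolynomial.smul_monomial, smul_eq_mul, mul_one]
  rw [h2, map_smul, h1]

theorem monomial_mem {t : Var →₀ ℕ} (hz : t Var.z = 0) (hb : t Var.zb = 0) (c : ℂ) :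
    MvPolynomial.monomial t c ∈ Jt := by
  unfold Jt
  rw [MvPolynomial.mem_supported]
  intro v hv
  by_cases hc : c = 0
  · subst hc
    simp at hv
  · rw [MvPolynomial.vars_monomial hc, Finset.mem_coe, Finsupp.mem_support_iff] at hv
    constructor
    · rintro rfl
      exact hv hz
    · rintro rfl
      exact hv hb

theorem erase_z (s : Var →₀ ℕ) : ((s.erase Var.z).erase Var.zb) Var.z = 0 := by
  rw [Finsupp.erase_ne (by decide), Finsupp.erase_same]

theorem erase_zb (s : Var →₀ ℕ) : ((s.erase Var.z).erase Var.zb) Var.zb = 0 :=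
  Finsupp.erase_same

theorem fb_mem (s : Var →₀ ℕ) : fb s ∈ Jt := by
  unfold fb
  split_ifs
  · exact monomial_mem (erase_z s) (erase_zb s) _
  · exact Subalgebra.zero_mem _

theorem split_monomial (s : Var →₀ ℕ) (c : ℂ) :
    MvPolynomial.monomial s c = MvPolynomial.monomial ((s.erase Var.z).erase Var.zb) c *
      (xz ^ s Var.z * xb ^ s Var.zb) := by
  unfold xz xb
  rw [MvPolynomial.X_pow_eq_monomial, MvPolynomial.X_pow_eq_monomial,
    MvPolynomial.monomial_mul, MvPolynomial.monomial_mul]
  rw [mul_one, mul_one]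
  have e : s = (s.erase Var.z).erase Var.zb +
      (Finsupp.single Var.z (s Var.z) + Finsupp.single Var.zb (s Var.zb)) := by
    ext v
    rw [Finsupp.add_apply, Finsupp.add_apply]
    by_cases h1 : v = Var.z
    · subst h1
      rw [erase_z, Finsupp.single_eq_same, Finsupp.single_eq_of_ne (by decide)]
      omega
    · by_cases h2 : v = Var.zb
      · subst h2
        rw [erase_zb, Finsupp.single_eq_same, Finsupp.single_eq_of_ne (by decide)]
        omega
      · rw [Finsupp.erase_ne h2, Finsupp.erase_ne h1, Finsupp.single_eq_of_ne h1,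
          Finsupp.single_eq_of_ne h2]
        omega
  exact congrArg (fun t => MvPolynomial.monomial t c) e

theorem ind {p : RR → Prop} (hadd : ∀ P Q, p P → p Q → p (P + Q))
    (hm : ∀ m ∈ Jt, ∀ a b : ℕ, p (m * (xz ^ a * xb ^ b))) (P : RR) : p P := by
  induction P using MvPolynomial.induction_on' with
  | monomial s c =>
    rw [split_monomial]
    exact hm _ (monomial_mem (erase_z s) (erase_zb s) c) _ _
  | add P Q hP hQ => exact hadd P Q hP hQ

theorem G_mem (P : RR) : G P ∈ Jt := by
  induction P using MvPolynomial.induction_on' with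
  | monomial s c =>
    rw [G_monomial]
    exact Subalgebra.smul_mem _ (fb_mem s) c
  | add P Q hP hQ =>
    rw [map_add]
    exact Subalgebra.add_mem _ hP hQ

theorem G_X {v : Var} (h1 : v ≠ Var.z) (h2 : v ≠ Var.zb) (P : RR) :
    G (MvPolynomial.X v * P) = MvPolynomial.X v * G P := by
  induction P using MvPolynomial.induction_on' with
  | monomial s c =>
    have e1 : MvPolynomial.X v * MvPolynomial.monomial s c =
        (MvPolynomial.monomial (Finsupp.single v 1 + s) c : RR) := by
      rw [MvPolynomial.X, MvPolynomial.monomial_mul, one_mul]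
    rw [e1, G_monomial, G_monomial, mul_smul_comm]
    congr 1
    unfold fb
    have e2 : (Finsupp.single v 1 + s : Var →₀ ℕ) Var.z = s Var.z := by
      rw [Finsupp.add_apply, Finsupp.single_eq_of_ne (Ne.symm h1), zero_add]
    have e3 : (Finsupp.single v 1 + s : Var →₀ ℕ) Var.zb = s Var.zb := by
      rw [Finsupp.add_apply, Finsupp.single_eq_of_ne (Ne.symm h2), zero_add]
    rw [e2, e3]
    split_ifs with h
    · rw [MvPolynomial.X, MvPolynomial.monomial_mul, one_mul]
      have e : (((Finsupp.single v 1 + s : Var →₀ ℕ).erase Var.z).erase Var.zb) =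
          Finsupp.single v 1 + (s.erase Var.z).erase Var.zb := by
        ext w
        rw [Finsupp.add_apply]
        by_cases hw1 : w = Var.z
        · subst hw1
          rw [erase_z, erase_z, Finsupp.single_eq_of_ne (Ne.symm h1)]
        · by_cases hw2 : w = Var.zb
          · subst hw2
            rw [erase_zb, erase_zb, Finsupp.single_eq_of_ne (Ne.symm h2)]
          · rw [Finsupp.erase_ne hw2, Finsupp.erase_ne hw1, Finsupp.erase_ne hw2,
              Finsupp.erase_ne hw1, Finsupp.add_apply]
      rw [e]
    · rw [mul_zero]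
  | add P Q hP hQ => rw [mul_add, map_add, map_add, mul_add, hP, hQ]

theorem G_mul (a : RR) (ha : a ∈ Jt) : ∀ P, G (a * P) = a * G P := by
  unfold Jt at ha
  rw [MvPolynomial.supported_eq_adjoin_X] at ha
  induction ha using Algebra.adjoin_induction with
  | mem x hx =>
    obtain ⟨v, hv, rfl⟩ := hx
    exact G_X hv.1 hv.2
  | algebraMap r =>
    intro P
    rw [← Algebra.smul_def, ← Algebra.smul_def, map_smul]
  | add x y _ _ hx hy =>
    intro P
    rw [add_mul, map_add, hx, hy, add_mul]
  | mul x y _ _ hx hy =>
    intro P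
    rw [mul_assoc, hx, hy, mul_assoc]

theorem G_zb (a b : ℕ) : G (xz ^ a * xb ^ b) =
    if a = b then MvPolynomial.C ((2 : ℂ) ^ a * a.factorial) else 0 := by
  unfold xz xb
  rw [MvPolynomial.X_pow_eq_monomial, MvPolynomial.X_pow_eq_monomial,
    MvPolynomial.monomial_mul, G_monomial]
  rw [mul_one, one_smul]
  unfold fb
  have e1 : (Finsupp.single Var.z a + Finsupp.single Var.zb b) Var.z = a := by
    rw [Finsupp.add_apply, Finsupp.single_eq_same, Finsupp.single_eq_of_ne (by decide), add_zero]
  have e2 : (Finsupp.single Var.z a + Finsupp.single Var.zb b) Var.zb = b := by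
    rw [Finsupp.add_apply, Finsupp.single_eq_same, Finsupp.single_eq_of_ne (by decide), zero_add]
  rw [e1, e2]
  split_ifs
  · have e3 : (((Finsupp.single Var.z a + Finsupp.single Var.zb b).erase Var.z).erase Var.zb) =
        0 := by
      ext w
      by_cases hw1 : w = Var.z
      · subst hw1
        rw [erase_z, Finsupp.zero_apply]
      · by_cases hw2 : w = Var.zb
        · subst hw2
          rw [erase_zb, Finsupp.zero_apply]
        · rw [Finsupp.erase_ne hw2, Finsupp.erase_ne hw1, Finsupp.add_apply,
            Finsupp.single_eq_of_ne hw1, Finsupp.single_eq_of_ne hw2, Finsupp.zero_apply,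
            add_zero]
    rw [e3]
    rfl
  · rfl

/-- **GFN** -/
theorem gfn (hcja : CjaStmt) (hcjb : CjbStmt) : GfnStmt := by
  obtain ⟨-, hcC, -, hcz, hcb, -, -, -, -, -, -, -, -⟩ := hcja
  obtain ⟨hJ, -, -, -, -, -, -, htz, htb, -, -, hzz, hzb, hbz, hbb, -, -⟩ := hcjb
  refine ⟨G, ⟨G_mem, fun a ha P => G_mul a ha P, ?_, ?_, ?_, ?_, ?_⟩⟩
  · have h := G_zb 0 0
    simpa using h
  · -- gz
    refine ind (fun P Q hP hQ => ?_) fun m hm a b => ?_
    · rw [map_add, map_add, mul_add, hP, hQ, mul_add, map_add]
    · have e1 : dz (m * (xz ^ a * xb ^ b)) = m * ((a : RR) * (xz ^ (a - 1) * xb ^ b)) := by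
        rw [Derivation.leibniz, (hJ m hm).2.2.1, Derivation.leibniz, Derivation.leibniz_pow,
          Derivation.leibniz_pow, hzz, hzb]
        simp only [smul_eq_mul, nsmul_eq_mul]
        ring
      have e2 : xb * (m * (xz ^ a * xb ^ b)) = m * (xz ^ a * xb ^ (b + 1)) := by ring
      have e3 : (a : RR) * (xz ^ (a - 1) * xb ^ b) = (a : ℂ) • (xz ^ (a - 1) * xb ^ b) := by
        rw [Algebra.smul_def, map_natCast]
      rw [e1, e2, G_mul m hm, G_mul m hm, e3, map_smul, G_zb, G_zb]
      by_cases h : a = b + 1
      · subst h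
        rw [Nat.add_sub_cancel, if_pos rfl, if_pos rfl, Algebra.smul_def, map_natCast,
          Nat.factorial_succ]
        simp only [map_mul, map_pow, map_natCast, map_ofNat, Nat.cast_mul, Nat.cast_add,
          Nat.cast_one, map_add, map_one]
        ring
      · rw [if_neg h]
        by_cases h2 : a - 1 = b
        · have h3 : a = 0 := by omega
          subst h3
          simp
        · rw [if_neg h2]
          simp
  · -- gb
    refine ind (fun P Q hP hQ => ?_) fun m hm a b => ?_
    · rw [map_add, map_add, mul_add, hP, hQ, mul_add, map_add]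
    · have e1 : db (m * (xz ^ a * xb ^ b)) = m * ((b : RR) * (xz ^ a * xb ^ (b - 1))) := by
        rw [Derivation.leibniz, (hJ m hm).2.2.2, Derivation.leibniz, Derivation.leibniz_pow,
          Derivation.leibniz_pow, hbz, hbb]
        simp only [smul_eq_mul, nsmul_eq_mul]
        ring
      have e2 : xz * (m * (xz ^ a * xb ^ b)) = m * (xz ^ (a + 1) * xb ^ b) := by ring
      have e3 : (b : RR) * (xz ^ a * xb ^ (b - 1)) = (b : ℂ) • (xz ^ a * xb ^ (b - 1)) := by
        rw [Algebra.smul_def, map_natCast]
      rw [e1, e2, G_mul m hm, G_mul m hm, e3, map_smul, G_zb, G_zb]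
      by_cases h : a + 1 = b
      · subst h
        rw [Nat.add_sub_cancel, if_pos rfl, if_pos rfl, Algebra.smul_def, map_natCast,
          Nat.factorial_succ]
        simp only [map_mul, map_pow, map_natCast, map_ofNat, Nat.cast_mul, Nat.cast_add,
          Nat.cast_one, map_add, map_one]
        ring
      · rw [if_neg h]
        by_cases h2 : a = b - 1
        · have h3 : b = 0 := by omega
          subst h3
          simp
        · rw [if_neg h2]
          simp
  · -- gt
    refine ind (fun P Q hP hQ => ?_) fun m hm a b => ?_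
    · rw [map_add, map_add, hP, hQ, map_add, map_add]
    · have e1 : dt (m * (xz ^ a * xb ^ b)) = dt m * (xz ^ a * xb ^ b) := by
        rw [Derivation.leibniz, Derivation.leibniz, Derivation.leibniz_pow,
          Derivation.leibniz_pow, htz, htb]
        simp only [smul_eq_mul, smul_zero, add_zero, mul_zero, zero_add]
        ring
      rw [e1, G_mul _ (hJ m hm).2.1, G_mul m hm, G_zb]
      split_ifs
      · rw [Derivation.leibniz, MvPolynomial.derivation_C]
        simp only [smul_eq_mul, mul_zero, zero_add]
        ring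
      · rw [mul_zero, mul_zero, map_zero]
  · -- gc
    refine ind (fun P Q hP hQ => ?_) fun m hm a b => ?_
    · rw [map_add, map_add, hP, hQ, map_add, map_add]
    · have e1 : cj (m * (xz ^ a * xb ^ b)) = cj m * (xz ^ b * xb ^ a) := by
        rw [map_mul, map_mul, map_pow, map_pow, hcz, hcb, mul_comm (xb ^ a)]
      have e2 : ∀ x : RR, cj (m * x) = cj m * cj x := fun x => map_mul cj m x
      rw [e1, G_mul _ (hJ m hm).1, G_mul m hm, G_zb, G_zb, e2]
      by_cases h : a = b
      · subst h
        rw [if_pos rfl, hcC]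
        have e3 : (starRingEnd ℂ) ((2 : ℂ) ^ a * (a.factorial : ℂ)) =
            (2 : ℂ) ^ a * (a.factorial : ℂ) := by
          rw [map_mul, map_pow, map_natCast, map_ofNat]
        rw [e3]
      · rw [if_neg h, if_neg (Ne.symm h)]
        simp

end Pool.Agent.FTU.H5
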